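import Pool.Agent.Helper807.BS.LEngine2
import Pool.Agent.Helper807.BS.LSeq2
import Pool.Agent.Helper41.BS.ExistBM

set_option autoImplicit false

/-!
# Non-uniqueness for the degenerate quadratic BSDE with generator `|z¹|² / 2`

For every probability space with a two-dimensional Brownian motion and every `T > 0` there are
a terminal value `ξ` with `E exp |ξ| < ∞` and two solutions with different (deterministic) values
at time `0`, both with `exp |Y|` of class (D). So uniqueness fails.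
-/

namespace Pool.Agent.Results.MP_dddec1_pr.NonUniqueness

open MeasureTheory ProbabilityTheory Set Filter Pool.Agent.Helper807.BS
open scoped NNReal ENNReal Topology

universe u

/-- Non-uniqueness on every probability space that carries a two-dimensional Brownian motion. -/
theorem main :
    ∀ (Ω : Type u) (_ : MeasurableSpace Ω) (P : Measure Ω) (_ : IsProbabilityMeasure P)
      (B : Fin 2 → ℝ≥0 → Ω → ℝ), IsBM2 B P → ∀ T : ℝ, 0 < T →
      ∃ (ξ : Ω → ℝ) (Y Y' : ℝ → Ω → ℝ) (Z Z' : Fin 2 → ℝ → Ω → ℝ),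
        Measurable[Fil B P T, borel ℝ] ξ ∧
        Integrable (fun ω => Real.exp |ξ ω|) P ∧
        IsSol T P B (fun z => 1 / 2 * |z 0| ^ 2) ξ Y Z ∧
        IsSol T P B (fun z => 1 / 2 * |z 0| ^ 2) ξ Y' Z' ∧
        ClassD T P (Fil B P) (fun t ω => Real.exp |Y t ω|) ∧
        ClassD T P (Fil B P) (fun t ω => Real.exp |Y' t ω|) ∧
        ∀ ω, Y 0 ω ≠ Y' 0 ω := by
  intro Ω _ P _ B hB T hT
  obtain ⟨idx, v, y, y', h0, h1, h2, h3, h4⟩ := seq_degenerate
  obtain ⟨ξ, hξ, H⟩ := engine P B hB T hT idx (![1, 0] : Fin 2 → ℝ) v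
  obtain ⟨Y, Z, hs, hY0, hD⟩ := H y h1
  obtain ⟨Y', Z', hs', hY0', hD'⟩ := H y' h2
  have hg : (fun z : Fin 2 → ℝ => ∑ i, (![1, 0] : Fin 2 → ℝ) i / 2 * (z i) ^ 2) =
      fun z => 1 / 2 * |z 0| ^ 2 := by
    funext z
    simp [Fin.sum_univ_two]
  rw [hg] at hs hs'
  have e1 := hD 1 one_pos (by simpa using h3)
  have e2 := hD' 1 one_pos (by simpa using h4)
  simp only [one_mul] at e1 e2
  exact ⟨ξ, Y, Y', Z, Z', hξ, e1.2, hs, hs', e1.1, e2.1, fun ω => by rw [hY0, hY0']; exact h0⟩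

/-- Some complete probability space carries a two-dimensional Brownian motion, and for every
probability space with a two-dimensional Brownian motion and every `T > 0` there are a terminal
value `ξ` in `exp(L)` and two solutions of the BSDE with generator `|z¹|² / 2` whose `Y`-components
are different at time `0` (everywhere), both with `exp |Y|` of class (D). -/
theorem result :
    (∃ (Ω : Type) (_ : MeasurableSpace Ω) (P : Measure Ω), IsProbabilityMeasure P ∧
      P.IsComplete ∧ ∃ B : Fin 2 → ℝ≥0 → Ω → ℝ, IsBM2 B P) ∧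
    ∀ (Ω : Type u) (_ : MeasurableSpace Ω) (P : Measure Ω) (_ : IsProbabilityMeasure P)
      (B : Fin 2 → ℝ≥0 → Ω → ℝ), IsBM2 B P → ∀ T : ℝ, 0 < T →
      ∃ (ξ : Ω → ℝ) (Y Y' : ℝ → Ω → ℝ) (Z Z' : Fin 2 → ℝ → Ω → ℝ),
        Measurable[Fil B P T, borel ℝ] ξ ∧
        Integrable (fun ω => Real.exp |ξ ω|) P ∧
        IsSol T P B (fun z => 1 / 2 * |z 0| ^ 2) ξ Y Z ∧
        IsSol T P B (fun z => 1 / 2 * |z 0| ^ 2) ξ Y' Z' ∧
        ClassD T P (Fil B P) (fun t ω => Real.exp |Y t ω|) ∧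
        ClassD T P (Fil B P) (fun t ω => Real.exp |Y' t ω|) ∧
        ∀ ω, Y 0 ω ≠ Y' 0 ω :=
  ⟨Pool.Agent.Helper41.BS.exists_bm2, main⟩

end Pool.Agent.Results.MP_dddec1_pr.NonUniqueness
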